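import Mathlib

/-!
Generic elements: refinement of an uncountable family of homomorphisms and locally constant
generic functions.
-/

set_option autoImplicit false

namespace Pool.Agent.h888.WC

open Topology Set Filter Cardinal

universe u

theorem inj_choice {I Y : Type u} (hY : #Y ≤ ℵ₁) (B : Y → Set I) (hB : ∀ y, ¬ (B y).Countable) :
    ∃ f : Y → I, Function.Injective f ∧ ∀ y, f y ∈ B y := by
  obtain ⟨r, wo, hr⟩ := Cardinal.ord_eq Y
  have hcount : ∀ y : Y, {z | r z y}.Countable := by
    intro y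
    rw [Cardinal.countable_iff_lt_aleph_one]
    refine lt_of_lt_of_le ?_ hY
    have h1 := Cardinal.card_typein_lt y hr
    exact h1
  have hex : ∀ (y : Y) (ih : ∀ z, r z y → I), ∃ i ∈ B y, ∀ z (hz : r z y), ih z hz ≠ i := by
    intro y ih
    by_contra hcon
    push Not at hcon
    apply hB y
    haveI : Countable {z // r z y} := (hcount y).to_subtype
    refine (countable_range fun z : {z // r z y} => ih z.1 z.2).mono ?_
    intro i hi
    obtain ⟨z, hz, h⟩ := hcon i hi
    exact ⟨⟨z, hz⟩, h⟩
  choose F hF1 hF2 using hex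
  have wf : WellFounded r := wo.wf
  let f : Y → I := wf.fix F
  have hf : ∀ y, f y = F y (fun z _ => f z) := fun y => wf.fix_eq F y
  refine ⟨f, ?_, fun y => by rw [hf]; exact hF1 _ _⟩
  have hne : ∀ y z, r z y → f z ≠ f y := by
    intro y z hz
    rw [hf y]
    exact hF2 y (fun z _ => f z) z hz
  intro y z hyz
  rcases trichotomous_of r y z with h | h | h
  · exact absurd hyz (hne z y h)
  · exact h
  · exact absurd hyz.symm (hne y z h)

theorem continuous_lift_eval {K : Type*} [Group K] [TopologicalSpace K] [IsTopologicalGroup K]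
    {ι : Type*} (w : FreeGroup ι) : Continuous fun x : ι → K => FreeGroup.lift x w := by
  induction w using FreeGroup.induction_on with
  | C1 => simpa using continuous_const
  | of i => simpa using continuous_apply i
  | inv_of i ih =>
    have h : (fun x : ι → K => FreeGroup.lift x (FreeGroup.of i)⁻¹) = fun x => (x i)⁻¹ := by
      funext x; simp
    rw [h]
    exact (continuous_apply i).inv
  | mul x y hx hy =>
    have h : (fun z : ι → K => FreeGroup.lift z (x * y)) =
        fun z => FreeGroup.lift z x * FreeGroup.lift z y := by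
      funext z; simp
    rw [h]
    exact hx.mul hy

section

variable {G : Type u} [Group G] {L K : Type} [Group L] [Group K] [TopologicalSpace K]
  [IsTopologicalGroup K]

/-- the evaluation of a word -/
def ev (φ : G →* K) {k : ℕ} (w : FreeGroup (Fin k)) (x : Fin k → G) : K :=
  FreeGroup.lift (fun t => φ (x t)) w

/-- index set of basic conditions -/
abbrev R0 : Type :=
  Σ k : ℕ, FreeGroup (Fin k) × (TopologicalSpace.countableBasis (Fin k → (ℕ → Bool))) × (Fin k → ℕ)

/-- tests -/
abbrev T0 : Type := Σ m : ℕ, ((Fin m → Bool) → ℕ)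

instance : Countable R0 := by
  haveI : ∀ k : ℕ, Countable (TopologicalSpace.countableBasis (Fin k → (ℕ → Bool))) := fun k =>
    (TopologicalSpace.countable_countableBasis _).to_subtype
  haveI : ∀ k : ℕ, Countable (FreeGroup (Fin k)) := fun k => by
    unfold FreeGroup
    infer_instance
  infer_instance

instance : Countable T0 := inferInstance

variable (Θ : (ℕ → Bool) → G) {I : Type u} (φ : I → G →* K) (ν : I → ℕ → G)

/-- the set of indices that satisfy a basic condition -/
def SR (r : R0) : Set I :=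
  {i | ∀ h ∈ (r.2.2.1 : Set (Fin r.1 → (ℕ → Bool))),
    ev (φ i) r.2.1 (fun t => Θ (h t) * ν i (r.2.2.2 t)) ≠ 1}

theorem exists_cond (α : G →* L) [T2Space K]
    (hΘ : ∀ i, Continuous fun x => φ i (Θ x))
    (hνd : ∀ i, ∀ g ∈ α.ker, φ i g ∈ closure (range fun n => φ i (ν i n)))
    {k : ℕ} (w : FreeGroup (Fin k)) (h : Fin k → (ℕ → Bool)) (i : I) (v : Fin k → G)
    (hv : ∀ t, v t ∈ α.ker) (hne : ev (φ i) w (fun t => Θ (h t) * v t) ≠ 1) :
    ∃ (O : TopologicalSpace.countableBasis (Fin k → (ℕ → Bool))) (n : Fin k → ℕ),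
      h ∈ (O : Set (Fin k → (ℕ → Bool))) ∧ i ∈ SR Θ φ ν ⟨k, w, O, n⟩ := by
  let c : (Fin k → K) → K := fun x => FreeGroup.lift (fun t => φ i (Θ (h t)) * x t) w
  have hc : Continuous c :=
    (continuous_lift_eval w).comp (continuous_pi fun t => continuous_const.mul (continuous_apply t))
  have hopen : IsOpen {x | c x ≠ 1} := isOpen_ne_fun hc continuous_const
  have hx0 : (fun t => φ i (v t)) ∈ {x | c x ≠ 1} := by
    show FreeGroup.lift (fun t => φ i (Θ (h t)) * φ i (v t)) w ≠ 1
    have : (fun t => φ i (Θ (h t)) * φ i (v t)) = fun t => φ i (Θ (h t) * v t) := by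
      funext t; rw [map_mul]
    rw [this]
    exact hne
  have hcl : (fun t => φ i (v t)) ∈ closure (Set.pi univ fun _ : Fin k => range fun n => φ i (ν i n)) := by
    rw [closure_pi_set]
    exact fun t _ => hνd i (v t) (hv t)
  obtain ⟨x, hx1, hx2⟩ := mem_closure_iff.1 hcl _ hopen hx0
  choose n hn using fun t => hx2 t (mem_univ t)
  have hne2 : ev (φ i) w (fun t => Θ (h t) * ν i (n t)) ≠ 1 := by
    have : (fun t => φ i (Θ (h t) * ν i (n t))) = fun t => φ i (Θ (h t)) * x t := by
      funext t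
      rw [map_mul]
      exact congrArg (fun z => φ i (Θ (h t)) * z) (hn t)
    unfold ev
    rw [this]
    exact hx1
  have hopen2 : IsOpen {h' : Fin k → (ℕ → Bool) | ev (φ i) w (fun t => Θ (h' t) * ν i (n t)) ≠ 1} := by
    apply isOpen_ne_fun _ continuous_const
    unfold ev
    apply (continuous_lift_eval w).comp
    apply continuous_pi
    intro t
    have : (fun h' : Fin k → (ℕ → Bool) => φ i (Θ (h' t) * ν i (n t))) =
        fun h' => φ i (Θ (h' t)) * φ i (ν i (n t)) := by
      funext h'; rw [map_mul]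
    rw [this]
    exact ((hΘ i).comp (continuous_apply t)).mul continuous_const
  obtain ⟨O, hO, hhO, hsub⟩ :=
    (TopologicalSpace.isBasis_countableBasis (Fin k → (ℕ → Bool))).exists_subset_of_mem_open hne2 hopen2
  exact ⟨⟨O, hO⟩, n, hhO, fun h' hh' => hsub hh'⟩

/-- the refinement theorem -/
theorem refine_thm (α : G →* L) [T2Space K] [SecondCountableTopology K]
    (hΘ : ∀ i, Continuous fun x => φ i (Θ x)) (hI : #I = ℵ₁) :
    ∃ (J : Type u) (f : J → I) (ε : J → (ℕ → Bool) → G), Function.Injective f ∧ #J = ℵ₁ ∧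
      (∀ j b, ε j b ∈ α.ker) ∧ (∀ j, Continuous fun b => φ (f j) (ε j b)) ∧
      ∀ (k : ℕ) (w : FreeGroup (Fin k)) (h b : Fin k → (ℕ → Bool)), Function.Injective b →
        {j | ev (φ (f j)) w (fun t => Θ (h t) * ε j (b t)) ≠ 1}.Countable →
        ∀ j, ∀ v : Fin k → G, (∀ t, v t ∈ α.ker) →
          ev (φ (f j)) w (fun t => Θ (h t) * v t) = 1 := by
  classical
  -- dense sequences
  have hν : ∀ i : I, ∃ ν : ℕ → G, (∀ n, ν n ∈ α.ker) ∧
      ∀ g ∈ α.ker, φ i g ∈ closure (range fun n => φ i (ν n)) := by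
    intro i
    haveI : Nonempty (α.ker.map (φ i)) := ⟨1⟩
    haveI : SecondCountableTopology (α.ker.map (φ i)) :=
      TopologicalSpace.Subtype.secondCountableTopology _
    have h1 : ∀ n, ∃ g ∈ α.ker, φ i g = (TopologicalSpace.denseSeq (α.ker.map (φ i)) n : K) := fun n =>
      (TopologicalSpace.denseSeq (α.ker.map (φ i)) n).2
    choose ν hν1 hν2 using h1
    refine ⟨ν, hν1, fun g hg => ?_⟩
    have h2 := (TopologicalSpace.denseRange_denseSeq (α.ker.map (φ i))).closure_range
    have h3 : (⟨φ i g, g, hg, rfl⟩ : α.ker.map (φ i)) ∈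
        closure (range (TopologicalSpace.denseSeq (α.ker.map (φ i)))) := by
      rw [h2]; exact mem_univ _
    have h4 := image_closure_subset_closure_image continuous_subtype_val (mem_image_of_mem _ h3)
    have h5 : (range fun n => φ i (ν n)) =
        (Subtype.val '' range (TopologicalSpace.denseSeq (α.ker.map (φ i)))) := by
      rw [← range_comp]
      congr 1
      funext n
      exact hν2 n
    rw [h5]
    exact h4
  choose ν hνk hνd using hν
  let S : R0 → Set I := SR Θ φ ν
  let Is : Set I := {i | ∀ r, i ∈ S r → ¬ (S r).Countable}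
  have hIs : Isᶜ.Countable := by
    have h1 : Isᶜ ⊆ ⋃ r ∈ {r : R0 | (S r).Countable}, S r := by
      intro i hi
      simp only [Is, mem_compl_iff, mem_setOf_eq, not_forall, not_not] at hi
      obtain ⟨r, hr1, hr2⟩ := hi
      exact mem_biUnion (show r ∈ {r : R0 | (S r).Countable} from hr2) hr1
    refine Countable.mono h1 ?_
    exact (to_countable _).biUnion fun r hr => hr
  have hIunc : ¬ (univ : Set I).Countable := by
    intro h
    rw [Cardinal.countable_iff_lt_aleph_one, Cardinal.mk_univ, hI] at h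
    exact lt_irrefl _ h
  have hunc : ∀ T : Set I, ¬ T.Countable → ¬ (T ∩ Is).Countable := by
    intro T hT h
    apply hT
    refine (h.union hIs).mono ?_
    intro i hi
    by_cases h' : i ∈ Is
    · exact Or.inl ⟨hi, h'⟩
    · exact Or.inr h'
  let J : Type u := Option ({r : R0 // ¬ (S r).Countable} × T0) × I
  have hJle : #J ≤ ℵ₁ := by
    show #(Option ({r : R0 // ¬ (S r).Countable} × T0) × I) ≤ ℵ₁
    rw [Cardinal.mk_prod, hI]
    have h1 : #(Option ({r : R0 // ¬ (S r).Countable} × T0)) ≤ ℵ₀ := Cardinal.mk_le_aleph0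
    have h2 : Cardinal.lift.{u} #(Option ({r : R0 // ¬ (S r).Countable} × T0)) ≤ ℵ₁ := by
      have := Cardinal.lift_le.{u}.2 h1
      rw [Cardinal.lift_aleph0] at this
      exact this.trans (Cardinal.aleph0_le_aleph 1)
    calc _ ≤ (ℵ₁ : Cardinal.{u}) * Cardinal.lift.{0} ℵ₁ := by gcongr
      _ = ℵ₁ := by
        rw [Cardinal.lift_id'.{0, u}, Cardinal.mul_eq_self (Cardinal.aleph0_le_aleph 1)]
  let B : J → Set I := fun y => match y.1 with
    | none => univ ∩ Is
    | some q => S q.1.1 ∩ Is
  have hB : ∀ y, ¬ (B y).Countable := by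
    rintro ⟨_ | q, i⟩
    · exact hunc _ hIunc
    · exact hunc _ q.1.2
  obtain ⟨f, hfinj, hf⟩ := inj_choice hJle B hB
  have hfIs : ∀ j, f j ∈ Is := by
    rintro ⟨_ | q, i⟩
    · exact (hf (none, i)).2
    · exact (hf (some q, i)).2
  let ε : J → (ℕ → Bool) → G := fun y b => match y.1 with
    | none => 1
    | some q => ν (f y) (q.2.2 fun k => b k)
  refine ⟨J, f, ε, hfinj, ?_, ?_, ?_, ?_⟩
  · apply le_antisymm hJle
    rw [← hI]
    exact Cardinal.mk_le_of_injective (f := fun i : I => ((none, i) : J))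
      (fun i i' h => (Prod.mk.inj h).2)
  · rintro ⟨_ | q, i⟩ b
    · exact α.ker.one_mem
    · exact hνk _ _
  · rintro ⟨_ | q, i⟩
    · show Continuous fun b : ℕ → Bool => φ (f (none, i)) 1
      exact continuous_const
    · have h1 : Continuous fun b : ℕ → Bool => (fun k : Fin q.2.1 => b k) :=
        continuous_pi fun k => continuous_apply _
      have h2 : Continuous fun z : Fin q.2.1 → Bool =>
          φ (f (some q, i)) (ν (f (some q, i)) (q.2.2 z)) := continuous_of_discreteTopology
      exact h2.comp h1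
  · intro k w h b hb hcount j v hv
    by_contra hne
    obtain ⟨O, n, hhO, hiS⟩ := exists_cond Θ φ ν α hΘ hνd w h (f j) v hv hne
    have hunS : ¬ (S ⟨k, w, O, n⟩).Countable := hfIs j _ hiS
    -- a level separating the b's
    obtain ⟨m, hm⟩ : ∃ m : ℕ, Function.Injective fun t : Fin k => (fun l : Fin m => b t l) := by
      have h1 : ∀ p : Fin k × Fin k, ∃ l : ℕ, p.1 ≠ p.2 → b p.1 l ≠ b p.2 l := by
        intro p
        by_cases hp : p.1 = p.2
        · exact ⟨0, fun h => absurd hp h⟩
        · have h2 : b p.1 ≠ b p.2 := fun h => hp (hb h)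
          obtain ⟨l, hl⟩ := Function.ne_iff.1 h2
          exact ⟨l, fun _ => hl⟩
      choose l hl using h1
      refine ⟨(Finset.univ.sup l) + 1, fun s t hst => ?_⟩
      by_contra hne'
      have h3 : l (s, t) < (Finset.univ.sup l) + 1 :=
        Nat.lt_succ_of_le (Finset.le_sup (Finset.mem_univ _))
      exact hl (s, t) hne' (congrFun hst ⟨l (s, t), h3⟩)
    let g : (Fin m → Bool) → ℕ := Function.extend (fun t : Fin k => (fun l : Fin m => b t l)) n 0
    have hg : ∀ t, g (fun l : Fin m => b t l) = n t := fun t => hm.extend_apply n 0 t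
    apply hIunc
    have h4 : MapsTo (fun i : I => ((some (⟨⟨k, w, O, n⟩, hunS⟩, ⟨m, g⟩), i) : J)) univ
        {j | ev (φ (f j)) w (fun t => Θ (h t) * ε j (b t)) ≠ 1} := by
      intro i _
      have h5 : f (some (⟨⟨k, w, O, n⟩, hunS⟩, ⟨m, g⟩), i) ∈ S ⟨k, w, O, n⟩ :=
        (hf (some (⟨⟨k, w, O, n⟩, hunS⟩, ⟨m, g⟩), i)).1
      have h6 := h5 h hhO
      show ev (φ (f (some (⟨⟨k, w, O, n⟩, hunS⟩, ⟨m, g⟩), i))) w (fun t => Θ (h t) *
        ν (f (some (⟨⟨k, w, O, n⟩, hunS⟩, ⟨m, g⟩), i)) (g fun l => b t l)) ≠ 1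
      simp only [hg]
      exact h6
    exact h4.countable_of_injOn (fun i _ i' _ h => (Prod.mk.inj h).2) hcount

end

end Pool.Agent.h888.WC
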