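import Mathlib
import Pool.Agent.h888.WC.Split

/-!
Construction of the subgroup.
-/

set_option autoImplicit false

namespace Pool.Agent.h888.WC

open Topology Set Filter Cardinal

universe u

theorem exists_inj_cantor (L : Type) [TopologicalSpace L] [T2Space L] [SecondCountableTopology L] :
    ∃ f : L → (ℕ → Bool), Function.Injective f := by
  borelize L
  obtain ⟨f, _, hf⟩ := MeasurableSpace.measurable_injection_nat_bool_of_countablySeparated L
  exact ⟨f, hf⟩

theorem exists_inj_task (J : Type u) (hJ : #J = ℵ₁) (L K : Type) [TopologicalSpace L] [T2Space L]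
    [SecondCountableTopology L] [TopologicalSpace K] [T2Space K] [SecondCountableTopology K] :
    ∃ b : (ℕ → J) × L × (ℕ → K) → (ℕ → Bool), Function.Injective b := by
  obtain ⟨eL, hL⟩ := exists_inj_cantor L
  obtain ⟨eK, hK⟩ := exists_inj_cantor K
  obtain ⟨eJ, hJ'⟩ : ∃ f : J → (ℕ → Bool), Function.Injective f := by
    have h1 : Cardinal.lift.{0} #J ≤ Cardinal.lift.{u} #(ℕ → Bool) := by
      rw [hJ]
      have h2 : #(ℕ → Bool) = 𝔠 := by simp
      rw [h2, Cardinal.lift_continuum, Cardinal.lift_uzero]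
      exact Cardinal.aleph_one_le_continuum
    obtain ⟨e⟩ := Cardinal.lift_mk_le'.1 h1
    exact ⟨e, e.injective⟩
  have h3 : #((ℕ → ℕ → Bool) × (ℕ → Bool) × (ℕ → ℕ → Bool)) ≤ #(ℕ → Bool) := by
    have h4 : #(ℕ → Bool) = 𝔠 := by simp
    have h5 : #(ℕ → ℕ → Bool) = 𝔠 := by
      rw [Cardinal.mk_arrow, h4]
      simp
    rw [Cardinal.mk_prod, Cardinal.mk_prod, h4, h5]
    simp
  obtain ⟨e⟩ := h3
  refine ⟨fun p => e (fun n => eJ (p.1 n), eL p.2.1, fun n => eK (p.2.2 n)), ?_⟩
  rintro ⟨a, b, c⟩ ⟨a', b', c'⟩ h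
  have h6 := e.injective h
  simp only [Prod.mk.injEq] at h6
  obtain ⟨h7, h8, h9⟩ := h6
  have h10 : a = a' := funext fun n => hJ' (congrFun h7 n)
  have h11 : b = b' := hL h8
  have h12 : c = c' := funext fun n => hK (congrFun h9 n)
  rw [h10, h11, h12]

theorem finite_support {P : Type u} (W : FreeGroup P) :
    ∃ (F : Finset P) (W' : FreeGroup F), FreeGroup.map (Subtype.val : F → P) W' = W := by
  classical
  induction W using FreeGroup.induction_on with
  | C1 => exact ⟨∅, 1, map_one _⟩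
  | of x =>
    refine ⟨{x}, FreeGroup.of ⟨x, Finset.mem_singleton_self x⟩, ?_⟩
    simp
  | inv_of x ih =>
    refine ⟨{x}, (FreeGroup.of ⟨x, Finset.mem_singleton_self x⟩)⁻¹, ?_⟩
    simp
  | mul x y hx hy =>
    obtain ⟨F, A, hA⟩ := hx
    obtain ⟨F', A', hA'⟩ := hy
    let i1 : F → (F ∪ F' : Finset P) := fun z => ⟨z.1, Finset.mem_union_left _ z.2⟩
    let i2 : F' → (F ∪ F' : Finset P) := fun z => ⟨z.1, Finset.mem_union_right _ z.2⟩
    refine ⟨F ∪ F', FreeGroup.map i1 A * FreeGroup.map i2 A', ?_⟩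
    rw [map_mul, FreeGroup.map.comp, FreeGroup.map.comp]
    have e1 : (Subtype.val : (F ∪ F' : Finset P) → P) ∘ i1 = Subtype.val := rfl
    have e2 : (Subtype.val : (F ∪ F' : Finset P) → P) ∘ i2 = Subtype.val := rfl
    rw [e1, e2, hA, hA']

theorem rep_closure {G : Type u} [Group G] {P : Type u} (g : P → G) {d : G}
    (hd : d ∈ Subgroup.closure (range g)) :
    ∃ (k : ℕ) (w : FreeGroup (Fin k)) (ι : Fin k → P), Function.Injective ι ∧
      d = FreeGroup.lift (fun t => g (ι t)) w := by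
  rw [← FreeGroup.range_lift_eq_closure] at hd
  obtain ⟨W, rfl⟩ := hd
  obtain ⟨F, W', rfl⟩ := finite_support W
  let e := Fintype.equivFin F
  refine ⟨Fintype.card F, FreeGroup.map e W', fun t => (e.symm t).1, ?_, ?_⟩
  · exact Subtype.val_injective.comp e.symm.injective
  · have h1 : ∀ W' : FreeGroup F, FreeGroup.lift g (FreeGroup.map Subtype.val W') =
        FreeGroup.lift (fun t => g ((e.symm t).1)) (FreeGroup.map e W') := by
      intro W'
      induction W' using FreeGroup.induction_on with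
      | C1 => simp
      | of x => simp
      | inv_of x ih => simp
      | mul x y hx hy => rw [map_mul, map_mul, map_mul, map_mul, hx, hy]
    exact h1 W'

/-- the space of representations -/
abbrev PP : Type := Σ q : (Σ k : ℕ, FreeGroup (Fin k)), (Fin q.1 → (ℕ → Bool) × (ℕ → Bool))

instance : Countable (Σ k : ℕ, FreeGroup (Fin k)) := by
  haveI : ∀ k : ℕ, Countable (FreeGroup (Fin k)) := fun k => by
    unfold FreeGroup
    infer_instance
  infer_instance

instance : SecondCountableTopology PP := inferInstance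

theorem cons_thm {G : Type u} [Group G] {L K : Type} [Group L] [TopologicalSpace L] [T2Space L]
    [SecondCountableTopology L] [Group K] [TopologicalSpace K] [IsTopologicalGroup K] [T2Space K]
    [SecondCountableTopology K] (α : G →* L) (J : Type u) (hJ : #J = ℵ₁) (φ : J → G →* K)
    (Θ : (ℕ → Bool) → G) (ε : J → (ℕ → Bool) → G) (hΘ : ∀ g, ∃ x, α (Θ x) = α g)
    (hΘc : ∀ j, Continuous fun x => φ j (Θ x)) (hεk : ∀ j b, ε j b ∈ α.ker)
    (hεc : ∀ j, Continuous fun b => φ j (ε j b))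
    (hInd : ∀ v : J → G, (∀ j, v j ∈ α.ker) → ∃ n ∈ α.ker, ∀ j, φ j n = φ j (v j))
    (hGen : ∀ (k : ℕ) (w : FreeGroup (Fin k)) (h b : Fin k → (ℕ → Bool)), Function.Injective b →
        {j | ev (φ j) w (fun t => Θ (h t) * ε j (b t)) ≠ 1}.Countable →
        ∀ j, ∀ v : Fin k → G, (∀ t, v t ∈ α.ker) → ev (φ j) w (fun t => Θ (h t) * v t) = 1) :
    ∃ D₀ : Subgroup G,
      (∀ (s : ℕ → J) (g : G), ∃ d ∈ D₀, α d = α g ∧ ∀ n, φ (s n) d = φ (s n) g) ∧
      (∀ d ∈ D₀, {j | φ j d ≠ 1}.Countable → ∀ j, φ j d = 1) ∧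
      ∃ (p : G → PP) (E : J → PP → K) (cJ : G → Set J), (∀ j, Continuous (E j)) ∧
        ∀ d ∈ D₀, (cJ d).Countable ∧ ∀ j, j ∉ cJ d → φ j d = E j (p d) := by
  classical
  obtain ⟨bP, hbP⟩ := exists_inj_task J hJ L K
  have h1 : ∀ p : (ℕ → J) × L × (ℕ → K), ∃ g : G,
      (∃ g', α g' = p.2.1 ∧ ∀ n, φ (p.1 n) g' = p.2.2 n) →
        (α g = p.2.1 ∧ ∀ n, φ (p.1 n) g = p.2.2 n) := by
    intro p
    by_cases h : ∃ g', α g' = p.2.1 ∧ ∀ n, φ (p.1 n) g' = p.2.2 n
    · obtain ⟨g', hg'⟩ := h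
      exact ⟨g', fun _ => hg'⟩
    · exact ⟨1, fun h' => absurd h' h⟩
  choose g0 hg0 using h1
  choose xp hxp using fun p => hΘ (g0 p)
  have h2 : ∀ p : (ℕ → J) × L × (ℕ → K), ∃ n ∈ α.ker, ∀ j,
      φ j n = φ j (if j ∈ range p.1 then (Θ (xp p))⁻¹ * g0 p else ε j (bP p)) := by
    intro p
    apply hInd
    intro j
    by_cases h : j ∈ range p.1
    · rw [if_pos h, MonoidHom.mem_ker, map_mul, map_inv, hxp, inv_mul_cancel]
    · rw [if_neg h]
      exact hεk _ _
  choose n hn1 hn2 using h2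
  let g : (ℕ → J) × L × (ℕ → K) → G := fun p => Θ (xp p) * n p
  have hgα : ∀ p, α (g p) = α (g0 p) := by
    intro p
    show α (Θ (xp p) * n p) = _
    rw [map_mul, hxp, MonoidHom.mem_ker.1 (hn1 p), mul_one]
  have hg1 : ∀ p j, j ∈ range p.1 → φ j (g p) = φ j (g0 p) := by
    intro p j hj
    show φ j (Θ (xp p) * n p) = _
    rw [map_mul, hn2, if_pos hj, map_mul, map_inv, mul_inv_cancel_left]
  have hg2 : ∀ p j, j ∉ range p.1 → φ j (g p) = φ j (Θ (xp p) * ε j (bP p)) := by
    intro p j hj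
    show φ j (Θ (xp p) * n p) = _
    rw [map_mul, hn2, if_neg hj, map_mul]
  -- representations
  have hrep : ∀ d : G, ∃ (k : ℕ) (w : FreeGroup (Fin k)) (ι : Fin k → (ℕ → J) × L × (ℕ → K)),
      d ∈ Subgroup.closure (range g) → Function.Injective ι ∧
        d = FreeGroup.lift (fun t => g (ι t)) w := by
    intro d
    by_cases hd : d ∈ Subgroup.closure (range g)
    · obtain ⟨k, w, ι, h⟩ := rep_closure g hd
      exact ⟨k, w, ι, fun _ => h⟩
    · exact ⟨0, 1, Fin.elim0, fun h => absurd h hd⟩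
  choose k w ι hι using hrep
  let cJ : G → Set J := fun d => ⋃ t, range (ι d t).1
  have hcJ : ∀ d, (cJ d).Countable := fun d => countable_iUnion fun t => countable_range _
  let E : J → PP → K := fun j q =>
    FreeGroup.lift (fun t => φ j (Θ (q.2 t).1) * φ j (ε j (q.2 t).2)) q.1.2
  let p : G → PP := fun d => ⟨⟨k d, w d⟩, fun t => (xp (ι d t), bP (ι d t))⟩
  have hlift : ∀ (d : G) (j : J), d ∈ Subgroup.closure (range g) →
      φ j d = FreeGroup.lift (fun t => φ j (g (ι d t))) (w d) := by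
    intro d j hd
    conv_lhs => rw [(hι d hd).2]
    have h3 : ∀ W : FreeGroup (Fin (k d)), φ j (FreeGroup.lift (fun t => g (ι d t)) W) =
        FreeGroup.lift (fun t => φ j (g (ι d t))) W := by
      intro W
      induction W using FreeGroup.induction_on with
      | C1 => simp
      | of x => simp
      | inv_of x ih => simp
      | mul x y hx hy => rw [map_mul, map_mul, map_mul, hx, hy]
    exact h3 _
  have hE : ∀ d ∈ Subgroup.closure (range g), ∀ j, j ∉ cJ d → φ j d = E j (p d) := by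
    intro d hd j hj
    rw [hlift d j hd]
    show _ = FreeGroup.lift (fun t => φ j (Θ (xp (ι d t))) * φ j (ε j (bP (ι d t)))) (w d)
    congr 2
    funext t
    rw [hg2 _ _ (fun h => hj (mem_iUnion.2 ⟨t, h⟩)), map_mul]
  refine ⟨Subgroup.closure (range g), ?_, ?_, p, E, cJ, ?_, fun d hd => ⟨hcJ d, hE d hd⟩⟩
  · intro s g₁
    refine ⟨g (s, α g₁, fun n => φ (s n) g₁), Subgroup.subset_closure (mem_range_self _), ?_, ?_⟩
    · rw [hgα]
      exact (hg0 (s, α g₁, fun n => φ (s n) g₁) ⟨g₁, rfl, fun n => rfl⟩).1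
    · intro m
      rw [hg1 (s, α g₁, fun n => φ (s n) g₁) (s m) (mem_range_self m)]
      exact (hg0 (s, α g₁, fun n => φ (s n) g₁) ⟨g₁, rfl, fun n => rfl⟩).2 m
  · intro d hd hc j
    have h4 : {j | ev (φ j) (w d) (fun t => Θ (xp (ι d t)) * ε j (bP (ι d t))) ≠ 1}.Countable := by
      refine (hc.union (hcJ d)).mono ?_
      intro j hj
      by_cases h : j ∈ cJ d
      · exact Or.inr h
      · refine Or.inl ?_
        show φ j d ≠ 1
        rw [hE d hd j h]
        show FreeGroup.lift (fun t => φ j (Θ (xp (ι d t))) * φ j (ε j (bP (ι d t)))) (w d) ≠ 1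
        have h5 : (fun t => φ j (Θ (xp (ι d t))) * φ j (ε j (bP (ι d t)))) =
            fun t => φ j (Θ (xp (ι d t)) * ε j (bP (ι d t))) := by
          funext t; rw [map_mul]
        rw [h5]
        exact hj
    have h6 := hGen (k d) (w d) (fun t => xp (ι d t)) (fun t => bP (ι d t))
      (hbP.comp (hι d hd).1) h4 j (fun t => n (ι d t)) (fun t => hn1 _)
    rw [hlift d j hd]
    exact h6
  · intro j
    apply continuous_sigma
    intro q
    show Continuous fun z : Fin q.1 → (ℕ → Bool) × (ℕ → Bool) =>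
      FreeGroup.lift (fun t => φ j (Θ (z t).1) * φ j (ε j (z t).2)) q.2
    apply (continuous_lift_eval q.2).comp
    apply continuous_pi
    intro t
    exact ((hΘc j).comp (continuous_fst.comp (continuous_apply t))).mul
      ((hεc j).comp (continuous_snd.comp (continuous_apply t)))

end Pool.Agent.h888.WC
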