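import Mathlib

/-!
Compact subsets of the constructed subgroup are metrizable.
-/

set_option autoImplicit false

namespace Pool.Agent.h888.WC

open Topology Set Filter

universe u v

theorem compact_small {J : Type u} {L K : Type v} {PS : Type v} [Group L] [TopologicalSpace L]
    [T2Space L] [IsTopologicalGroup L] [Group K] [TopologicalSpace K] [T2Space K]
    [IsTopologicalGroup K] [TopologicalSpace PS] [SecondCountableTopology PS]
    (D : Subgroup (L × (J → K)))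
    (hD : ∀ d ∈ D, {j | d.2 j ≠ 1}.Countable → ∀ j, d.2 j = 1)
    (p : L × (J → K) → PS) (E : J → PS → K) (cJ : L × (J → K) → Set J)
    (hE : ∀ j, Continuous (E j))
    (hp : ∀ d ∈ D, (cJ d).Countable ∧ ∀ j, j ∉ cJ d → d.2 j = E j (p d))
    (C : Set (L × (J → K))) (hC : IsCompact C) (hCD : ∀ x ∈ C, x ∈ D) :
    ∃ c : Set J, c.Countable ∧ ∀ x ∈ C, ∀ y ∈ C, x.1 = y.1 → (∀ j ∈ c, x.2 j = y.2 j) → x = y := by
  by_contra hcon
  push Not at hcon
  let C' : Set (L × (J → K)) := (fun q : (L × (J → K)) × (L × (J → K)) => q.1 * q.2⁻¹) '' (C ×ˢ C)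
  have hC' : IsCompact C' := (hC.prod hC).image (by fun_prop)
  have hC'D : ∀ x ∈ C', x ∈ D := by
    rintro _ ⟨⟨x, y⟩, ⟨hx, hy⟩, rfl⟩
    exact D.mul_mem (hCD x hx) (D.inv_mem (hCD y hy))
  have hC'c : ∀ c : Set J, c.Countable → ∃ z ∈ C', z.1 = 1 ∧ (∀ j ∈ c, z.2 j = 1) ∧ z ≠ 1 := by
    intro c hc
    obtain ⟨x, hx, y, hy, h1, h2, h3⟩ := hcon c hc
    refine ⟨x * y⁻¹, ⟨(x, y), ⟨hx, hy⟩, rfl⟩, ?_, ?_, ?_⟩
    · show x.1 * (y.1)⁻¹ = 1
      rw [h1, mul_inv_cancel]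
    · intro j hj
      show x.2 j * (y.2 j)⁻¹ = 1
      rw [h2 j hj, mul_inv_cancel]
    · intro h
      exact h3 (mul_inv_eq_one.1 h)
  have hbad : ∀ O : TopologicalSpace.countableBasis PS, ∃ c : Set J, c.Countable ∧
      ((∃ c : Set J, c.Countable ∧ ∀ z ∈ C', z.1 = 1 → (∀ j ∈ c, z.2 j = 1) → z ≠ 1 →
        p z ∉ (O : Set PS)) → ∀ z ∈ C', z.1 = 1 → (∀ j ∈ c, z.2 j = 1) → z ≠ 1 →
        p z ∉ (O : Set PS)) := by
    intro O
    by_cases h : ∃ c : Set J, c.Countable ∧ ∀ z ∈ C', z.1 = 1 → (∀ j ∈ c, z.2 j = 1) → z ≠ 1 →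
        p z ∉ (O : Set PS)
    · obtain ⟨c, hc, h'⟩ := h
      exact ⟨c, hc, fun _ => h'⟩
    · exact ⟨∅, countable_empty, fun h' => absurd h' h⟩
  choose cO hcO1 hcO2 using hbad
  haveI : Countable (TopologicalSpace.countableBasis PS) :=
    (TopologicalSpace.countable_countableBasis PS).to_subtype
  obtain ⟨z0, hz0C, hz01, hz02, hz0ne⟩ := hC'c (⋃ O, cO O) (countable_iUnion hcO1)
  obtain ⟨j0, hj0⟩ : ∃ j0, z0.2 j0 ≠ 1 := by
    by_contra h
    push Not at h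
    exact hz0ne (Prod.ext hz01 (funext h))
  have hget : ∀ O ∈ TopologicalSpace.countableBasis PS, p z0 ∈ O →
      ∃ z ∈ C', z.1 = 1 ∧ z.2 j0 = 1 ∧ p z ∈ O := by
    intro O hO hpO
    have h1 : ¬ ∃ c : Set J, c.Countable ∧ ∀ z ∈ C', z.1 = 1 → (∀ j ∈ c, z.2 j = 1) → z ≠ 1 →
        p z ∉ O := by
      intro h
      exact hcO2 ⟨O, hO⟩ h z0 hz0C hz01
        (fun j hj => hz02 j (mem_iUnion.2 ⟨⟨O, hO⟩, hj⟩)) hz0ne hpO
    push Not at h1
    obtain ⟨z, hzC, hz1, hz2, _, hz3⟩ := h1 {j0} (countable_singleton j0)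
    exact ⟨z, hzC, hz1, hz2 j0 rfl, hz3⟩
  obtain ⟨U, hU⟩ := (𝓝 (p z0)).exists_antitone_basis
  have hseq : ∀ n : ℕ, ∃ z ∈ C', z.1 = 1 ∧ z.2 j0 = 1 ∧ p z ∈ U n := by
    intro n
    obtain ⟨O, hO, hpO, hsub⟩ :=
      (TopologicalSpace.isBasis_countableBasis PS).mem_nhds_iff.1 (hU.mem n)
    obtain ⟨z, h1, h2, h3, h4⟩ := hget O hO hpO
    exact ⟨z, h1, h2, h3, hsub h4⟩
  choose z hzC hz1 hzj hzU using hseq
  have hpz : Tendsto (fun n => p (z n)) atTop (𝓝 (p z0)) := hU.tendsto hzU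
  let 𝒰 : Ultrafilter ℕ := Ultrafilter.of atTop
  have h𝒰 : (𝒰 : Filter ℕ) ≤ atTop := Ultrafilter.of_le _
  obtain ⟨y, hyC, hy⟩ := hC'.ultrafilter_le_nhds (𝒰.map z) (by
    rw [le_principal_iff, Ultrafilter.coe_map, Filter.mem_map]
    exact mem_of_superset univ_mem fun n _ => hzC n)
  have hty : Tendsto z 𝒰 (𝓝 y) := hy
  have hy1 : y.1 = 1 := by
    have h1 : Tendsto (fun n => (z n).1) 𝒰 (𝓝 y.1) := (continuous_fst.tendsto y).comp hty
    have h2 : (fun n => (z n).1) = fun _ => (1 : L) := funext hz1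
    rw [h2] at h1
    exact tendsto_nhds_unique tendsto_const_nhds h1 |>.symm
  have htj : ∀ j, Tendsto (fun n => (z n).2 j) 𝒰 (𝓝 (y.2 j)) := fun j =>
    (((continuous_apply j).comp continuous_snd).tendsto y).comp hty
  have hyj0 : y.2 j0 = 1 := by
    have h1 := htj j0
    have h2 : (fun n => (z n).2 j0) = fun _ => (1 : K) := funext hzj
    rw [h2] at h1
    exact tendsto_nhds_unique tendsto_const_nhds h1 |>.symm
  have hyD := hC'D y hyC
  have hz0D := hC'D z0 hz0C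
  have hyz : ∀ j, j ∉ cJ z0 ∪ ⋃ n, cJ (z n) → y.2 j = z0.2 j := by
    intro j hj
    have h1 : j ∉ cJ z0 := fun h => hj (Or.inl h)
    have h2 : ∀ n, j ∉ cJ (z n) := fun n h => hj (Or.inr (mem_iUnion.2 ⟨n, h⟩))
    have h3 := htj j
    have h4 : (fun n => (z n).2 j) = fun n => E j (p (z n)) := by
      funext n
      exact (hp _ (hC'D _ (hzC n))).2 j (h2 n)
    rw [h4] at h3
    have h5 : Tendsto (fun n => E j (p (z n))) 𝒰 (𝓝 (E j (p z0))) :=
      (((hE j).tendsto _).comp hpz).mono_left h𝒰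
    rw [tendsto_nhds_unique h3 h5, (hp _ hz0D).2 j h1]
  have hfin := hD (y * z0⁻¹) (D.mul_mem hyD (D.inv_mem hz0D)) (by
    refine (((hp _ hz0D).1).union (countable_iUnion fun n => (hp _ (hC'D _ (hzC n))).1)).mono ?_
    intro j hj
    by_contra h
    apply hj
    show y.2 j * (z0.2 j)⁻¹ = 1
    rw [hyz j h, mul_inv_cancel]) j0
  apply hj0
  have h6 : y.2 j0 * (z0.2 j0)⁻¹ = 1 := hfin
  rw [hyj0, one_mul, inv_eq_one] at h6
  exact h6

end Pool.Agent.h888.WC
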