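import Mathlib

/-!
Lifting continuous maps from the Cantor space through a homomorphism of compact groups.
-/

set_option autoImplicit false

namespace Pool.Agent.h888.WC

open Topology Set Filter
open scoped Pointwise

universe u

/-- truncation of a binary sequence -/
def tr (m : ℕ) (x : ℕ → Bool) : ℕ → Bool := fun k => if k < m then x k else false

theorem tr_tr {m m' : ℕ} (h : m ≤ m') (x : ℕ → Bool) : tr m (tr m' x) = tr m x := by
  funext k
  unfold tr
  by_cases hk : k < m
  · simp [hk, lt_of_lt_of_le hk h]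
  · simp [hk]

theorem continuous_comp_tr {Y : Type*} [TopologicalSpace Y] (m : ℕ) (F : (ℕ → Bool) → Y) :
    Continuous fun x => F (tr m x) := by
  let r : (ℕ → Bool) → (Fin m → Bool) := fun x k => x k
  have hr : Continuous r := continuous_pi fun k => continuous_apply _
  let e : (Fin m → Bool) → (ℕ → Bool) := fun y k => if h : k < m then y ⟨k, h⟩ else false
  have he : ∀ x, e (r x) = tr m x := by
    intro x
    funext k
    by_cases hk : k < m
    · simp [e, r, tr, hk]
    · simp [e, tr, hk]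
  have : (fun x => F (tr m x)) = (fun y => F (e y)) ∘ r := by
    funext x
    simp [he]
  rw [this]
  exact (continuous_of_discreteTopology).comp hr

theorem exists_level {L : Type*} [MetricSpace L] (a : (ℕ → Bool) → L) (ha : Continuous a) {δ : ℝ}
    (hδ : 0 < δ) : ∃ m : ℕ, ∀ x y : ℕ → Bool, (∀ k < m, x k = y k) → dist (a x) (a y) < δ := by
  by_contra hcon
  push Not at hcon
  let C : ℕ → Set ((ℕ → Bool) × (ℕ → Bool)) := fun m =>
    {p | (∀ k < m, p.1 k = p.2 k) ∧ δ ≤ dist (a p.1) (a p.2)}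
  have hC : ∀ m, IsClosed (C m) := by
    intro m
    have h1 : IsClosed {p : (ℕ → Bool) × (ℕ → Bool) | ∀ k < m, p.1 k = p.2 k} := by
      have : {p : (ℕ → Bool) × (ℕ → Bool) | ∀ k < m, p.1 k = p.2 k} =
          ⋂ k, ⋂ (_ : k < m), {p | p.1 k = p.2 k} := by ext p; simp
      rw [this]
      exact isClosed_iInter fun k => isClosed_iInter fun _ =>
        isClosed_eq ((continuous_apply k).comp continuous_fst)
          ((continuous_apply k).comp continuous_snd)
    exact h1.inter (isClosed_le continuous_const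
      ((ha.comp continuous_fst).dist (ha.comp continuous_snd)))
  obtain ⟨p, hp⟩ := IsCompact.nonempty_iInter_of_sequence_nonempty_isCompact_isClosed C
    (fun m p hp => ⟨fun k hk => hp.1 k (Nat.lt_succ_of_lt hk), hp.2⟩)
    (fun m => by
      obtain ⟨x, y, h1, h2⟩ := hcon m
      exact ⟨(x, y), h1, h2⟩)
    (hC 0).isCompact hC
  rw [mem_iInter] at hp
  have h1 : p.1 = p.2 := by
    funext k
    exact (hp (k + 1)).1 k (Nat.lt_succ_self k)
  have h2 := (hp 0).2
  rw [h1, dist_self] at h2
  exact absurd h2 (not_le.2 hδ)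

section

variable {G : Type u} [Group G] [TopologicalSpace G] [IsTopologicalGroup G] [CompactSpace G]
  {L K : Type*} [Group L] [Group K] [MetricSpace L] [MetricSpace K]

theorem unif_open (α : G →* L) (hα : Continuous α) (φ : G →* K) (hφ : Continuous φ) {ε : ℝ}
    (hε : 0 < ε) : ∃ δ > 0, ∀ g g₂ : G, dist (α g) (α g₂) < δ →
      ∃ g', α g' = α g₂ ∧ dist (φ g') (φ g) < ε := by
  have h1 : ∀ᶠ y in 𝓝 (1 : G), ∀ g ∈ (univ : Set G), dist (φ (g * y)) (φ g) < ε := by
    apply IsCompact.eventually_forall_of_forall_eventually isCompact_univ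
    intro g _
    have h2 : Continuous fun z : G × G => dist (φ (z.2 * z.1)) (φ z.2) :=
      (hφ.comp (continuous_snd.mul continuous_fst)).dist (hφ.comp continuous_snd)
    have h3 := h2.tendsto ((1 : G), g)
    simp only [mul_one, dist_self] at h3
    exact h3.eventually (gt_mem_nhds hε)
  obtain ⟨U, hU1, hUo, hU2⟩ := eventually_nhds_iff.1 h1
  let B : Set (G × G) := {p | p.1⁻¹ * p.2 ∉ U * (α.ker : Set G)}
  have hB : IsClosed B := by
    have : IsOpen (U * (α.ker : Set G)) := hUo.mul_right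
    have h2 : Continuous fun p : G × G => p.1⁻¹ * p.2 := by fun_prop
    exact (this.preimage h2).isClosed_compl
  have key : ∀ g g₂ : G, (g, g₂) ∉ B → ∃ g', α g' = α g₂ ∧ dist (φ g') (φ g) < ε := by
    intro g g₂ hgg
    have h2 : g⁻¹ * g₂ ∈ U * (α.ker : Set G) := by
      by_contra h
      exact hgg h
    obtain ⟨v, hv, n, hn, hvn⟩ := Set.mem_mul.1 h2
    refine ⟨g * v, ?_, hU1 v hv g (mem_univ _)⟩
    have h3 : g₂ = g * v * n := by rw [mul_assoc, hvn, mul_inv_cancel_left]
    have h4 : α n = 1 := hn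
    rw [h3, map_mul _ (g * v) n, h4, mul_one]
  rcases B.eq_empty_or_nonempty with h | h
  · exact ⟨1, one_pos, fun g g₂ _ => key g g₂ (by rw [h]; exact notMem_empty _)⟩
  · obtain ⟨p, hp, hmin⟩ := hB.isCompact.exists_isMinOn h
      (((hα.comp continuous_fst).dist (hα.comp continuous_snd)).continuousOn)
    refine ⟨dist (α p.1) (α p.2), ?_, ?_⟩
    · rw [gt_iff_lt, dist_pos]
      intro h2
      apply hp
      refine ⟨1, hU2, p.1⁻¹ * p.2, ?_, by simp⟩
      show α (p.1⁻¹ * p.2) = 1
      rw [map_mul, map_inv, h2, inv_mul_cancel]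
    · intro g g₂ hlt
      apply key
      intro h2
      exact absurd (hmin h2) (not_le.2 hlt)

theorem lift_one [CompactSpace K] (α : G →* L) (hα : Continuous α) (φ : G →* K) (hφ : Continuous φ)
    (a : (ℕ → Bool) → L) (ha : Continuous a) (hag : ∀ x, ∃ g, α g = a x) :
    ∃ θ : (ℕ → Bool) → K, Continuous θ ∧ ∀ x, ∃ g, α g = a x ∧ φ g = θ x := by
  have hpow : ∀ n : ℕ, (0 : ℝ) < (1 / 2) ^ n := fun n => by positivity
  choose δ' hδ'pos hδ' using fun n : ℕ => unif_open α hα φ hφ (hpow n)
  let δ : ℕ → ℝ := fun n => min (δ' n) ((1 / 2) ^ n)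
  have hδpos : ∀ n, 0 < δ n := fun n => lt_min (hδ'pos n) (hpow n)
  choose m hm using fun n => exists_level a ha (hδpos n)
  let M : ℕ → ℕ := fun n => ∑ i ∈ Finset.range (n + 1), m i
  have hMm : ∀ n, m n ≤ M n := fun n =>
    Finset.single_le_sum (f := m) (fun _ _ => Nat.zero_le _) (Finset.mem_range.2 (Nat.lt_succ_self n))
  have hMM : ∀ n, M n ≤ M (n + 1) := fun n => by
    show ∑ i ∈ Finset.range (n + 1), m i ≤ ∑ i ∈ Finset.range (n + 1 + 1), m i
    rw [Finset.sum_range_succ _ (n + 1)]
    exact Nat.le_add_right _ _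
  have htr : ∀ n z, dist (a (tr (M n) z)) (a z) < δ n := by
    intro n z
    apply hm n
    intro k hk
    simp [tr, lt_of_lt_of_le hk (hMm n)]
  have hstep : ∀ (n : ℕ) (h : {h : (ℕ → Bool) → G // ∀ z, α (h z) = a z}),
      ∃ h' : {h : (ℕ → Bool) → G // ∀ z, α (h z) = a z},
        ∀ z, dist (φ (h'.1 z)) (φ (h.1 (tr (M n) z))) < (1 / 2) ^ n := by
    intro n h
    have h1 : ∀ z, ∃ g', α g' = a z ∧ dist (φ g') (φ (h.1 (tr (M n) z))) < (1 / 2) ^ n := by
      intro z
      have h2 := hδ' n (h.1 (tr (M n) z)) (h.1 z) (by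
        rw [h.2, h.2]
        exact lt_of_lt_of_le (htr n z) (min_le_left _ _))
      rw [h.2] at h2
      exact h2
    choose h' h1' h2' using h1
    exact ⟨⟨h', h1'⟩, h2'⟩
  choose nx hnx using hstep
  choose h0 hh0 using hag
  let h : ℕ → {h : (ℕ → Bool) → G // ∀ z, α (h z) = a z} := fun n => Nat.rec ⟨h0, hh0⟩ nx n
  have hh : ∀ n z, dist (φ ((h (n + 1)).1 z)) (φ ((h n).1 (tr (M n) z))) < (1 / 2) ^ n :=
    fun n z => hnx n (h n) z
  let f : ℕ → (ℕ → Bool) → K := fun n x => φ ((h n).1 (tr (M n) x))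
  have hf : ∀ n, Continuous (f n) := fun n => continuous_comp_tr (M n) fun z => φ ((h n).1 z)
  have hd : ∀ x n, dist (f n x) (f (n + 1) x) ≤ 1 * (1 / 2) ^ n := by
    intro x n
    have := hh n (tr (M (n + 1)) x)
    rw [tr_tr (hMM n)] at this
    rw [dist_comm, one_mul]
    exact this.le
  have hcau : ∀ x, CauchySeq fun n => f n x := fun x =>
    cauchySeq_of_le_geometric _ _ (by norm_num) (hd x)
  choose θ hθ using fun x => cauchySeq_tendsto_of_complete (hcau x)
  refine ⟨θ, ?_, ?_⟩
  · have hun : TendstoUniformly f θ atTop := by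
      rw [Metric.tendstoUniformly_iff]
      intro ε hε
      have h1 : Tendsto (fun n : ℕ => 1 * (1 / 2 : ℝ) ^ n / (1 - 1 / 2)) atTop (𝓝 0) := by
        have := (tendsto_pow_atTop_nhds_zero_of_lt_one (r := (1 / 2 : ℝ)) (by norm_num)
          (by norm_num)).const_mul 1 |>.div_const (1 - 1 / 2)
        simpa using this
      filter_upwards [h1.eventually (gt_mem_nhds hε)] with n hn x
      rw [dist_comm]
      exact lt_of_le_of_lt (dist_le_of_le_geometric_of_tendsto _ _ (by norm_num) (hd x) (hθ x) n) hn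
    exact hun.continuous (Frequently.of_forall hf)
  · intro x
    have hcl : IsClosed (range fun g : G => (α g, φ g)) :=
      (isCompact_range (hα.prodMk hφ)).isClosed
    have ht : Tendsto (fun n => (α ((h n).1 (tr (M n) x)), φ ((h n).1 (tr (M n) x)))) atTop
        (𝓝 (a x, θ x)) := by
      apply Tendsto.prodMk_nhds _ (hθ x)
      simp only [(h _).2]
      rw [tendsto_iff_dist_tendsto_zero]
      refine squeeze_zero (fun _ => dist_nonneg) (fun n => (htr n x).le.trans (min_le_right _ _)) ?_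
      exact tendsto_pow_atTop_nhds_zero_of_lt_one (by norm_num) (by norm_num)
    have hmem := hcl.mem_of_tendsto ht (Eventually.of_forall fun n => mem_range_self _)
    obtain ⟨g, hg⟩ := hmem
    rw [Prod.mk.injEq] at hg
    exact ⟨g, hg.1, hg.2⟩

end

end Pool.Agent.h888.WC
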