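import Mathlib

/-!
A structure theorem for non-metrizable compact groups: over a co-metrizable closed normal subgroup
there are uncountably many independent representations.
-/

set_option autoImplicit false

namespace Pool.Agent.h888.WC

open Topology Set

universe u v

/-- Independence of a set `S` of homomorphisms over a subgroup `N`. -/
def Indep {G : Type u} {K : Type v} [Group G] [Group K] (N : Subgroup G) (S : Set (G →* K)) : Prop :=
  (∀ φ ∈ S, ∃ n ∈ N, φ n ≠ 1) ∧
  ∀ F : Finset (G →* K), (F : Set (G →* K)) ⊆ S → ∀ g : (G →* K) → G, (∀ φ ∈ F, g φ ∈ N) →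
    ∃ n ∈ N, ∀ φ ∈ F, φ n = φ (g φ)

section alg

variable {G : Type u} {K : Type v} [Group G] [Group K]

/-- the common kernel of a set of homomorphisms -/
def NK (A : Set (G →* K)) : Subgroup G := ⨅ φ ∈ A, φ.ker

theorem mem_NK {A : Set (G →* K)} {x : G} : x ∈ NK A ↔ ∀ φ ∈ A, φ x = 1 := by
  unfold NK
  simp [Subgroup.mem_iInf, MonoidHom.mem_ker]

theorem exists_max (N : Subgroup G) (R : Set (G →* K)) :
    ∃ S, S ⊆ R ∧ Indep N S ∧ ∀ S', S' ⊆ R → Indep N S' → S ⊆ S' → S' ⊆ S := by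
  obtain ⟨m, hm⟩ := zorn_subset {S : Set (G →* K) | S ⊆ R ∧ Indep N S} (by
    intro c hc hch
    refine ⟨⋃₀ c, ⟨?_, ?_, ?_⟩, fun s hs => subset_sUnion_of_mem hs⟩
    · exact sUnion_subset fun s hs => (hc hs).1
    · rintro φ ⟨s, hs, hφ⟩
      exact (hc hs).2.1 φ hφ
    · intro F hF g hg
      rcases c.eq_empty_or_nonempty with rfl | hne
      · refine ⟨1, N.one_mem, fun φ hφ => ?_⟩
        have := hF hφ
        simp at this
      · obtain ⟨s, hs, hFs⟩ : ∃ s ∈ c, (F : Set (G →* K)) ⊆ s := by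
          have := DirectedOn.exists_mem_subset_of_finset_subset_biUnion (α := G →* K)
            (f := fun s : Set (G →* K) => s) hne hch.directedOn (s := F)
            (by rw [← sUnion_eq_biUnion]; exact hF)
          exact this
        exact (hc hs).2.2 F hFs g hg)
  exact ⟨m, hm.prop.1, hm.prop.2, fun S' h1 h2 h3 => hm.2 ⟨h1, h2⟩ h3⟩

theorem step {N : Subgroup G} {R S : Set (G →* K)} (hSR : S ⊆ R) (hS : Indep N S)
    (hmax : ∀ S', S' ⊆ R → Indep N S' → S ⊆ S' → S' ⊆ S) {φ : G →* K} (hφ : φ ∈ R)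
    {x : G} (hx : x ∈ N) (hφx : φ x ≠ 1) {N' : Subgroup G} (hN'N : N' ≤ N)
    (hN'S : ∀ n ∈ N', ∀ ψ ∈ S, ψ n = 1) : ¬ N.map φ ≤ N'.map φ := by
  classical
  intro hle
  have hφS : φ ∉ S := by
    intro h
    obtain ⟨y, hy, hyx⟩ := hle ⟨x, hx, rfl⟩
    exact hφx (hyx ▸ hN'S y hy φ h)
  apply hφS
  refine hmax (insert φ S) (insert_subset hφ hSR) ⟨?_, ?_⟩ (subset_insert _ _) (mem_insert _ _)
  · rintro ψ (rfl | hψ)
    · exact ⟨x, hx, hφx⟩
    · exact hS.1 ψ hψ
  · intro F hF g hg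
    obtain ⟨n, hn, hnF⟩ := hS.2 (F.erase φ) (by
      intro ψ hψ
      rw [Finset.mem_coe, Finset.mem_erase] at hψ
      rcases hF hψ.2 with h | h
      · exact absurd h hψ.1
      · exact h) g (fun ψ hψ => hg ψ (Finset.mem_of_mem_erase hψ))
    by_cases hφF : φ ∈ F
    · obtain ⟨y, hy, hye⟩ := hle (Subgroup.mem_map_of_mem φ (N.mul_mem (N.inv_mem hn) (hg φ hφF)))
      refine ⟨n * y, N.mul_mem hn (hN'N hy), fun ψ hψ => ?_⟩
      by_cases h : ψ = φ
      · subst h
        rw [map_mul, hye, map_mul, map_inv, mul_inv_cancel_left]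
      · have h1 : ψ ∈ S := by
          rcases hF hψ with h' | h'
          · exact absurd h' h
          · exact h'
        rw [map_mul, hN'S y hy ψ h1, mul_one]
        exact hnF ψ (Finset.mem_erase.2 ⟨h, hψ⟩)
    · refine ⟨n, hn, fun ψ hψ => hnF ψ (Finset.mem_erase.2 ⟨?_, hψ⟩)⟩
      rintro rfl
      exact hφF hψ

end alg

section top

variable {G : Type u} [Group G] [TopologicalSpace G] [IsTopologicalGroup G] [CompactSpace G]
  [T2Space G] {K : Type v} [Group K] [TopologicalSpace K] [IsTopologicalGroup K] [T2Space K]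
  [SecondCountableTopology K]

omit [IsTopologicalGroup G] [CompactSpace G] [T2Space G] [IsTopologicalGroup K]
  [SecondCountableTopology K] in
theorem isClosed_NK {A : Set (G →* K)} (hA : ∀ φ ∈ A, Continuous φ) :
    IsClosed (NK A : Set G) := by
  have : (NK A : Set G) = ⋂ φ ∈ A, {x | φ x = 1} := by
    ext x
    simp only [SetLike.mem_coe, mem_NK, mem_iInter, mem_setOf_eq]
  rw [this]
  exact isClosed_biInter fun φ hφ => isClosed_eq (hA φ hφ) continuous_const

omit [IsTopologicalGroup G] [IsTopologicalGroup K] in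
theorem secondCountable_of_sep {A : Set (G →* K)} (hA : ∀ φ ∈ A, Continuous φ)
    (hc : A.Countable) (hs : ∀ x, (∀ φ ∈ A, φ x = 1) → x = 1) [T2Space G] :
    SecondCountableTopology G := by
  haveI : Countable A := hc.to_subtype
  let f : G → (A → K) := fun x φ => φ.1 x
  have hf : Continuous f := continuous_pi fun φ => hA φ.1 φ.2
  have hinj : Function.Injective f := by
    intro x y hxy
    have h1 : x * y⁻¹ = 1 := by
      apply hs
      intro φ hφ
      have h2 : φ x = φ y := congrFun hxy ⟨φ, hφ⟩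
      rw [map_mul, map_inv, h2, mul_inv_cancel]
    exact mul_inv_eq_one.1 h1
  exact (hf.isClosedEmbedding hinj).isEmbedding.secondCountableTopology

/-- Structure theorem. -/
theorem structure_thm (R : Set (G →* K)) (hRc : ∀ φ ∈ R, Continuous φ)
    (hsep : ∀ x, (∀ φ ∈ R, φ x = 1) → x = 1)
    (hD : ∀ φ ∈ R, ∀ M : ℕ → Subgroup G, (∀ k, IsClosed (M k : Set G)) → Antitone M →
      ∃ k, (M k).map φ ≤ (M (k + 1)).map φ)
    (hG : ¬ SecondCountableTopology G) :
    ∃ A ⊆ R, A.Countable ∧ ∃ S ⊆ R, ¬ S.Countable ∧ Indep (NK A) S := by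
  by_contra hcon
  push Not at hcon
  choose mx hmx1 hmx2 hmx3 using fun A : Set (G →* K) => exists_max (NK A) R
  let A : ℕ → Set (G →* K) := fun k => Nat.rec ∅ (fun _ B => B ∪ mx B) k
  have hA0 : A 0 = ∅ := rfl
  have hAs : ∀ k, A (k + 1) = A k ∪ mx (A k) := fun _ => rfl
  have hAR : ∀ k, A k ⊆ R ∧ (A k).Countable := by
    intro k
    induction k with
    | zero => rw [hA0]; exact ⟨empty_subset _, countable_empty⟩
    | succ k ih =>
      rw [hAs]
      refine ⟨union_subset ih.1 (hmx1 _), ih.2.union ?_⟩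
      by_contra h
      exact hcon (A k) ih.1 ih.2 (mx (A k)) (hmx1 _) h (hmx2 _)
  have hanti : Antitone fun k => NK (A k) := by
    apply antitone_nat_of_succ_le
    intro k x hx
    rw [mem_NK] at hx ⊢
    intro φ hφ
    exact hx φ (by rw [hAs]; exact Or.inl hφ)
  apply hG
  apply secondCountable_of_sep (A := ⋃ k, A k) ?_ (countable_iUnion fun k => (hAR k).2)
  · intro x hx
    apply hsep
    intro φ hφ
    by_contra hφx
    obtain ⟨k, hk⟩ := hD φ hφ (fun k => NK (A k))
      (fun k => isClosed_NK fun φ hφ => hRc φ ((hAR k).1 hφ)) hanti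
    have hxk : ∀ k, x ∈ NK (A k) := fun k => mem_NK.2 fun ψ hψ => hx ψ (mem_iUnion.2 ⟨k, hψ⟩)
    refine step (hmx1 _) (hmx2 _) (hmx3 _) hφ (hxk k) hφx (hanti (Nat.le_succ k)) ?_ hk
    intro n hn ψ hψ
    exact mem_NK.1 hn ψ (by rw [Nat.succ_eq_add_one, hAs]; exact Or.inr hψ)
  · intro φ hφ
    obtain ⟨k, hk⟩ := mem_iUnion.1 hφ
    exact hRc φ ((hAR k).1 hk)

omit [IsTopologicalGroup G] [IsTopologicalGroup K] [SecondCountableTopology K] [T2Space G] in
/-- full independence by compactness -/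
theorem Indep.full {N : Subgroup G} {S : Set (G →* K)} (h : Indep N S)
    (hN : IsClosed (N : Set G)) (hS : ∀ φ ∈ S, Continuous φ) (g : (G →* K) → G)
    (hg : ∀ φ ∈ S, g φ ∈ N) : ∃ n ∈ N, ∀ φ ∈ S, φ n = φ (g φ) := by
  classical
  let C : Finset S → Set G := fun F => (N : Set G) ∩ {x | ∀ φ ∈ F, φ.1 x = φ.1 (g φ.1)}
  have hCc : ∀ F, IsClosed (C F) := by
    intro F
    refine hN.inter ?_
    have : {x : G | ∀ φ ∈ F, φ.1 x = φ.1 (g φ.1)} = ⋂ φ ∈ F, {x | φ.1 x = φ.1 (g φ.1)} := by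
      ext x; simp
    rw [this]
    exact isClosed_biInter fun φ _ => isClosed_eq (hS φ.1 φ.2) continuous_const
  have hne : (⋂ F, C F).Nonempty := by
    apply IsCompact.nonempty_iInter_of_directed_nonempty_isCompact_isClosed
    · intro F F'
      refine ⟨F ∪ F', ?_, ?_⟩
      · rintro x ⟨h1, h2⟩
        exact ⟨h1, fun φ hφ => h2 φ (Finset.mem_union_left _ hφ)⟩
      · rintro x ⟨h1, h2⟩
        exact ⟨h1, fun φ hφ => h2 φ (Finset.mem_union_right _ hφ)⟩
    · intro F
      obtain ⟨n, hn, hnF⟩ := h.2 (F.image Subtype.val) (by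
        intro φ hφ
        rw [Finset.coe_image] at hφ
        obtain ⟨ψ, _, rfl⟩ := hφ
        exact ψ.2) g (by
        intro φ hφ
        rw [Finset.mem_image] at hφ
        obtain ⟨ψ, _, rfl⟩ := hφ
        exact hg _ ψ.2)
      exact ⟨n, hn, fun φ hφ => hnF φ.1 (Finset.mem_image_of_mem _ hφ)⟩
    · exact fun F => (hCc F).isCompact
    · exact hCc
  obtain ⟨n, hn⟩ := hne
  rw [mem_iInter] at hn
  refine ⟨n, (hn ∅).1, fun φ hφ => ?_⟩
  exact (hn {⟨φ, hφ⟩}).2 ⟨φ, hφ⟩ (Finset.mem_singleton_self _)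

end top

end Pool.Agent.h888.WC
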