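import Mathlib
import Pool.Agent.TH264.Bridge.PW
import Pool.Agent.W494.ZQ.DCC
import Pool.Agent.W577.ZQ.Add
import Pool.Agent.W382.ZQ.Trv
import Pool.Agent.W29.ZQ.Lc
import Pool.Agent.h888.WC.Struct

/-!
The representations of a compact group in the product of all unitary groups.
-/

set_option autoImplicit false

namespace Pool.Agent.h888.WC

open Topology Set Filter
open Pool.Agent.W809.ZQ

universe u

/-- the product of all unitary groups -/
abbrev KK : Type := (n : ℕ) → U n

instance instSCMt (n : ℕ) : SecondCountableTopology (Mt n) :=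
  inferInstanceAs (SecondCountableTopology (Fin n → Fin n → ℂ))

instance instSCU (n : ℕ) : SecondCountableTopology (U n) :=
  TopologicalSpace.Subtype.secondCountableTopology _

/-- the special representations -/
def RR (G : Type u) [Group G] [TopologicalSpace G] : Set (G →* KK) :=
  {φ | ∃ (n : ℕ) (ρ : G →* U n), Continuous ρ ∧ ∀ g, φ g = Pi.mulSingle n (ρ g)}

section

variable {G : Type u} [Group G] [TopologicalSpace G]

theorem RR_continuous {φ : G →* KK} (h : φ ∈ RR G) : Continuous φ := by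
  obtain ⟨n, ρ, hρ, hφ⟩ := h
  have : (φ : G → KK) = fun g => Pi.mulSingle n (ρ g) := funext hφ
  rw [this]
  exact (continuous_mulSingle (A := fun n => U n) n).comp hρ

variable [IsTopologicalGroup G] [CompactSpace G] [T2Space G]

theorem RR_sep (x : G) (hx : ∀ φ ∈ RR G, φ x = 1) : x = 1 := by
  by_contra hne
  obtain ⟨N, ρ₀, h1, h2⟩ := Pool.Agent.TH264.Bridge.PWaux1.exists_rep_ne_one G x hne
  obtain ⟨ι, _, _, ρ, h3, h4⟩ := Pool.Agent.TH264.Bridge.PWaux2.PW_unit G x N ρ₀ h1 h2
  let e : ι ≃ Fin (Fintype.card ι) := Fintype.equivFin ι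
  have hmem : ∀ g, (ρ g : Matrix ι ι ℂ).submatrix e.symm e.symm ∈
      Matrix.unitaryGroup (Fin (Fintype.card ι)) ℂ := by
    intro g
    rw [Matrix.mem_unitaryGroup_iff', Matrix.star_eq_conjTranspose, Matrix.conjTranspose_submatrix,
      Matrix.submatrix_mul_equiv]
    have h5 := Matrix.mem_unitaryGroup_iff'.1 (ρ g).2
    rw [Matrix.star_eq_conjTranspose] at h5
    rw [h5]
    exact Matrix.submatrix_one_equiv e.symm
  let σ : G →* Matrix.unitaryGroup (Fin (Fintype.card ι)) ℂ :=
    { toFun := fun g => ⟨(ρ g : Matrix ι ι ℂ).submatrix e.symm e.symm, hmem g⟩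
      map_one' := by
        apply Subtype.ext
        show ((ρ 1 : Matrix.unitaryGroup ι ℂ) : Matrix ι ι ℂ).submatrix e.symm e.symm = 1
        rw [map_one]
        exact Matrix.submatrix_one_equiv e.symm
      map_mul' := fun g h => by
        apply Subtype.ext
        show ((ρ (g * h) : Matrix.unitaryGroup ι ℂ) : Matrix ι ι ℂ).submatrix e.symm e.symm =
          (ρ g : Matrix ι ι ℂ).submatrix e.symm e.symm * (ρ h : Matrix ι ι ℂ).submatrix e.symm e.symm
        rw [map_mul, Matrix.submatrix_mul_equiv]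
        rfl }
  have hσc : Continuous σ := by
    apply Continuous.subtype_mk
    exact (continuous_subtype_val.comp h3).matrix_submatrix _ _
  let φ : G →* KK := (MonoidHom.mulSingle (fun n => U n) (Fintype.card ι)).comp σ
  have hφ : φ ∈ RR G := ⟨Fintype.card ι, σ, hσc, fun g => rfl⟩
  have h5 := hx φ hφ
  have h6 : Pi.mulSingle (M := fun n => U n) (Fintype.card ι) (σ x) = 1 := h5
  rw [Pi.mulSingle_eq_one_iff] at h6
  apply h4
  have h7 : (ρ x : Matrix ι ι ℂ).submatrix e.symm e.symm = 1 := congrArg Subtype.val h6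
  apply Subtype.ext
  show (ρ x : Matrix ι ι ℂ) = 1
  ext i j
  have h8 := congrFun (congrFun h7 (e i)) (e j)
  rw [Matrix.submatrix_apply, e.symm_apply_apply, e.symm_apply_apply] at h8
  rw [h8, Matrix.one_apply, Matrix.one_apply]
  simp

omit [IsTopologicalGroup G] [T2Space G] in
theorem RR_dcc {φ : G →* KK} (h : φ ∈ RR G) (M : ℕ → Subgroup G)
    (hM : ∀ k, IsClosed (M k : Set G)) (hanti : Antitone M) :
    ∃ k, (M k).map φ ≤ (M (k + 1)).map φ := by
  obtain ⟨n, ρ, hρ, hφ⟩ := h
  have hADD : S_ADD := Pool.Agent.W577.ZQ.add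
  have hTRV : S_TRV := Pool.Agent.W382.ZQ.trv
  have hLC : S_LC := Pool.Agent.W29.ZQ.Lc.lc hADD hTRV
  have hDCC : S_DCC := Pool.Agent.W494.ZQ.dcc hADD hLC
  obtain ⟨N, ⟨k, rfl⟩, hmin⟩ := hDCC n (range fun k => (M k).map ρ) (range_nonempty _) (by
    rintro _ ⟨k, rfl⟩
    show IsClosed (((M k).map ρ : Subgroup (U n)) : Set (U n))
    rw [Subgroup.coe_map]
    exact ((hM k).isCompact.image hρ).isClosed)
  refine ⟨k, ?_⟩
  have h1 : (M (k + 1)).map ρ = (M k).map ρ :=
    hmin _ ⟨k + 1, rfl⟩ (Subgroup.map_mono (hanti (Nat.le_succ k)))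
  rintro _ ⟨g, hg, rfl⟩
  have h2 : ρ g ∈ (M (k + 1)).map ρ := by
    rw [h1]
    exact ⟨g, hg, rfl⟩
  obtain ⟨g', hg', he⟩ := h2
  exact ⟨g', hg', by rw [hφ, hφ, he]⟩

/-- Structure theorem for a compact group that is not metrizable. -/
theorem structure_RR (hG : ¬ SecondCountableTopology G) :
    ∃ A ⊆ RR G, A.Countable ∧ ∃ S ⊆ RR G, ¬ S.Countable ∧ Indep (NK A) S :=
  structure_thm (RR G) (fun _ => RR_continuous) RR_sep (fun _ h => RR_dcc h) hG

end

end Pool.Agent.h888.WC
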