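import Mathlib

/-!
`G_δ`-density of preimages, and failure of first countability.
-/

set_option autoImplicit false

namespace Pool.Agent.h888.WC

open Topology Set Filter
open scoped Pointwise

universe u

section

variable {G : Type u} [Group G] [TopologicalSpace G] [IsTopologicalGroup G] [CompactSpace G]
  [T2Space G] {L K : Type} [Group L] [TopologicalSpace L] [T2Space L] [Group K]
  [TopologicalSpace K] [T2Space K]

/-- the combined homomorphism -/
def PhiHom (α : G →* L) {J : Type u} (φ : J → G →* K) : G →* L × (J → K) :=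
  α.prod (MonoidHom.mk' (fun g j => φ j g) (fun a b => by funext j; exact map_mul _ _ _))

omit [TopologicalSpace G] [IsTopologicalGroup G] [CompactSpace G] [T2Space G]
  [TopologicalSpace L] [T2Space L] [TopologicalSpace K] [T2Space K] in
theorem PhiHom_fst (α : G →* L) {J : Type u} (φ : J → G →* K) (g : G) :
    (PhiHom α φ g).1 = α g := rfl

omit [TopologicalSpace G] [IsTopologicalGroup G] [CompactSpace G] [T2Space G]
  [TopologicalSpace L] [T2Space L] [TopologicalSpace K] [T2Space K] in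
theorem PhiHom_snd (α : G →* L) {J : Type u} (φ : J → G →* K) (g : G) (j : J) :
    (PhiHom α φ g).2 j = φ j g := rfl

omit [IsTopologicalGroup G] [CompactSpace G] [T2Space G] [T2Space L] [T2Space K] in
theorem PhiHom_continuous {α : G →* L} (hα : Continuous α) {J : Type u} {φ : J → G →* K}
    (hφ : ∀ j, Continuous (φ j)) : Continuous (PhiHom α φ) :=
  hα.prodMk (continuous_pi hφ)

theorem gdelta_dense {α : G →* L} (hα : Continuous α) {J : Type u} [Nonempty J] {φ : J → G →* K}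
    (hφ : ∀ j, Continuous (φ j)) (D₀ : Subgroup G)
    (hD : ∀ (s : ℕ → J) (g : G), ∃ d ∈ D₀, α d = α g ∧ ∀ n, φ (s n) d = φ (s n) g)
    (B : Set G) (hB : IsGδ B) (hne : B.Nonempty) :
    (((D₀.map (PhiHom α φ)).comap (PhiHom α φ) : Set G) ∩ B).Nonempty := by
  classical
  obtain ⟨g, hg⟩ := hne
  obtain ⟨T, hT, rfl⟩ := isGδ_iff_eq_iInter_nat.1 hB
  rw [mem_iInter] at hg
  have hV : ∀ n, ∃ V ∈ 𝓝 (1 : G), IsClosed V ∧ V ⊆ {v | g * v ∈ T n} := by
    intro n
    apply exists_mem_nhds_isClosed_subset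
    have h1 : Continuous fun v : G => g * v := by fun_prop
    exact ((hT n).preimage h1).mem_nhds (by simpa using hg n)
  choose V hV1 hV2 hV3 using hV
  let W : ℕ → Set G := fun n => ⋂ m ∈ Finset.range (n + 1), V m
  have hWc : ∀ n, IsClosed (W n) := fun n => isClosed_biInter fun m _ => hV2 m
  have hW1 : ∀ n, W n ∈ 𝓝 (1 : G) := fun n => (biInter_finset_mem _).2 fun m _ => hV1 m
  have hWanti : ∀ n, W (n + 1) ⊆ W n := by
    intro n x hx
    simp only [W, mem_iInter, Finset.mem_range] at hx ⊢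
    exact fun m hm => hx m (by omega)
  have hWV : ∀ n, W n ⊆ V n := by
    intro n x hx
    simp only [W, mem_iInter, Finset.mem_range] at hx
    exact hx n (Nat.lt_succ_self n)
  let M : Subgroup G := (PhiHom α φ).ker
  have hM : ∀ x, x ∈ M ↔ α x = 1 ∧ ∀ j, φ j x = 1 := by
    intro x
    show PhiHom α φ x = 1 ↔ _
    rw [Prod.ext_iff]
    constructor
    · rintro ⟨h1, h2⟩
      exact ⟨h1, fun j => congrFun h2 j⟩
    · rintro ⟨h1, h2⟩
      exact ⟨h1, funext h2⟩
  let MF : Finset J → Set G := fun F => {x | α x = 1 ∧ ∀ j ∈ F, φ j x = 1}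
  have hMFc : ∀ F, IsClosed (MF F) := by
    intro F
    have h1 : MF F = {x | α x = 1} ∩ ⋂ j ∈ F, {x | φ j x = 1} := by
      ext x; simp [MF]
    rw [h1]
    exact (isClosed_eq hα continuous_const).inter
      (isClosed_biInter fun j _ => isClosed_eq (hφ j) continuous_const)
  have hF : ∀ n, ∃ F : Finset J, MF F ⊆ interior (W n) * (M : Set G) := by
    intro n
    apply exists_subset_nhds_of_isCompact' (V := MF)
    · intro F F'
      refine ⟨F ∪ F', ?_, ?_⟩
      · rintro x ⟨h1, h2⟩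
        exact ⟨h1, fun j hj => h2 j (Finset.mem_union_left _ hj)⟩
      · rintro x ⟨h1, h2⟩
        exact ⟨h1, fun j hj => h2 j (Finset.mem_union_right _ hj)⟩
    · exact fun F => (hMFc F).isCompact
    · exact hMFc
    · intro x hx
      rw [mem_iInter] at hx
      apply IsOpen.mem_nhds (isOpen_interior.mul_right)
      refine ⟨1, mem_interior_iff_mem_nhds.2 (hW1 n), x, ?_, one_mul x⟩
      exact (hM x).2 ⟨(hx ∅).1, fun j => (hx {j}).2 j (Finset.mem_singleton_self j)⟩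
  choose F hF using hF
  obtain ⟨s, hs⟩ := Set.countable_iff_exists_subset_range.1
    (countable_iUnion fun n => (F n).countable_toSet)
  obtain ⟨d, hd, hd1, hd2⟩ := hD s g
  have hxF : ∀ n, g⁻¹ * d ∈ interior (W n) * (M : Set G) := by
    intro n
    apply hF n
    refine ⟨by rw [map_mul, map_inv, hd1, inv_mul_cancel], fun j hj => ?_⟩
    obtain ⟨m, rfl⟩ := hs (mem_iUnion.2 ⟨n, hj⟩)
    rw [map_mul, map_inv, hd2, inv_mul_cancel]
  let C : ℕ → Set G := fun n => {v | v ∈ W n ∧ v⁻¹ * (g⁻¹ * d) ∈ (M : Set G)}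
  have hMc : IsClosed (M : Set G) := by
    have : (M : Set G) = PhiHom α φ ⁻¹' {1} := rfl
    rw [this]
    exact isClosed_singleton.preimage (PhiHom_continuous hα hφ)
  have hCc : ∀ n, IsClosed (C n) := by
    intro n
    have h1 : Continuous fun v : G => v⁻¹ * (g⁻¹ * d) := by fun_prop
    exact (hWc n).inter (hMc.preimage h1)
  obtain ⟨v, hv⟩ := IsCompact.nonempty_iInter_of_sequence_nonempty_isCompact_isClosed C
    (fun n x hx => ⟨hWanti n hx.1, hx.2⟩)
    (fun n => by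
      obtain ⟨v, hv, m, hm, hvm⟩ := hxF n
      refine ⟨v, interior_subset hv, ?_⟩
      rw [← hvm]
      show v⁻¹ * (v * m) ∈ (M : Set G)
      rw [inv_mul_cancel_left]
      exact hm)
    (hCc 0).isCompact hCc
  rw [mem_iInter] at hv
  refine ⟨g * v, ?_, ?_⟩
  · show PhiHom α φ (g * v) ∈ D₀.map (PhiHom α φ)
    have h1 : PhiHom α φ (v⁻¹ * (g⁻¹ * d)) = 1 := (hv 0).2
    have h2 : PhiHom α φ d = PhiHom α φ (g * v) := by
      have h3 : d = g * v * (v⁻¹ * (g⁻¹ * d)) := by group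
      conv_lhs => rw [h3]
      rw [map_mul _ (g * v), h1, mul_one]
    rw [← h2]
    exact ⟨d, hd, rfl⟩
  · rw [mem_iInter]
    intro n
    exact hV3 n (hWV n (hv n).1)

omit [TopologicalSpace G] [IsTopologicalGroup G] [CompactSpace G] [T2Space G] [T2Space L]
  [T2Space K] in
theorem nhds_one_basic {J : Type u} {O : Set (L × (J → K))} (hO : O ∈ 𝓝 (1 : L × (J → K))) :
    ∃ F : Set J, F.Finite ∧ ∀ x : L × (J → K), x.1 = 1 → (∀ j ∈ F, x.2 j = 1) → x ∈ O := by
  have h1 : O ∈ 𝓝 ((1 : L), (1 : J → K)) := hO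
  rw [mem_nhds_prod_iff] at h1
  obtain ⟨U, hU, V, hV, hUV⟩ := h1
  rw [nhds_pi, Filter.mem_pi] at hV
  obtain ⟨F, hF, t, ht, htV⟩ := hV
  refine ⟨F, hF, fun x hx1 hx2 => hUV ⟨?_, htV ?_⟩⟩
  · rw [hx1]; exact mem_of_mem_nhds hU
  · intro j hj
    rw [hx2 j hj]
    exact mem_of_mem_nhds (ht j)

omit [TopologicalSpace G] [IsTopologicalGroup G] [CompactSpace G] [T2Space G] in
theorem not_second {α : G →* L} {J : Type u} (hJ : ¬ (univ : Set J).Countable) {φ : J → G →* K}
    (D₀ : Subgroup G)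
    (hD : ∀ (s : ℕ → J) (g : G), ∃ d ∈ D₀, α d = α g ∧ ∀ n, φ (s n) d = φ (s n) g)
    (hInd : ∀ v : J → G, (∀ j, v j ∈ α.ker) → ∃ n ∈ α.ker, ∀ j, φ j n = φ j (v j))
    (hnt : ∀ j, ∃ n ∈ α.ker, φ j n ≠ 1) :
    ¬ SecondCountableTopology (D₀.map (PhiHom α φ)) := by
  classical
  intro hsc
  obtain ⟨U, hU⟩ := (𝓝 (1 : D₀.map (PhiHom α φ))).exists_antitone_basis
  have h1 : ∀ n, ∃ F : Set J, F.Finite ∧ ∀ x : D₀.map (PhiHom α φ),
      x.1.1 = 1 → (∀ j ∈ F, x.1.2 j = 1) → x ∈ U n := by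
    intro n
    have h2 := hU.mem n
    rw [nhds_subtype_eq_comap, mem_comap] at h2
    obtain ⟨O, hO, hOU⟩ := h2
    obtain ⟨F, hF, h3⟩ := nhds_one_basic (L := L) (K := K) hO
    exact ⟨F, hF, fun x hx1 hx2 => hOU (h3 x.1 hx1 hx2)⟩
  choose F hF1 hF2 using h1
  have hc : (⋃ n, F n).Countable := countable_iUnion fun n => (hF1 n).countable
  obtain ⟨j, hj⟩ : ∃ j, j ∉ ⋃ n, F n := by
    by_contra h
    push Not at h
    exact hJ (hc.mono fun j _ => h j)
  obtain ⟨m, hm, hmj⟩ := hnt j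
  obtain ⟨x, hx, hxj⟩ := hInd (fun i => if i = j then m else 1) (by
    intro i
    by_cases h : i = j
    · rw [if_pos h]; exact hm
    · rw [if_neg h]; exact α.ker.one_mem)
  haveI : Nonempty J := ⟨j⟩
  obtain ⟨s, hs⟩ := Set.countable_iff_exists_subset_range.1 (hc.insert j)
  obtain ⟨d, hd, hd1, hd2⟩ := hD s x
  have hin : ∀ n, (⟨PhiHom α φ d, ⟨d, hd, rfl⟩⟩ : D₀.map (PhiHom α φ)) ∈ U n := by
    intro n
    apply hF2 n
    · show α d = 1
      rw [hd1]; exact hx
    · intro i hi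
      obtain ⟨k, rfl⟩ := hs (mem_insert_of_mem j (mem_iUnion.2 ⟨n, hi⟩))
      show φ (s k) d = 1
      rw [hd2, hxj, if_neg, map_one]
      intro h
      exact hj (h ▸ mem_iUnion.2 ⟨n, hi⟩)
  have hone : (⟨PhiHom α φ d, ⟨d, hd, rfl⟩⟩ : D₀.map (PhiHom α φ)) = 1 := by
    by_contra h
    have h2 : ({⟨PhiHom α φ d, ⟨d, hd, rfl⟩⟩}ᶜ : Set (D₀.map (PhiHom α φ))) ∈
        𝓝 (1 : D₀.map (PhiHom α φ)) := isOpen_compl_singleton.mem_nhds (Ne.symm h)
    obtain ⟨n, _, hn⟩ := hU.1.mem_iff.1 h2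
    exact hn (hin n) rfl
  have h3 : PhiHom α φ d = 1 := congrArg Subtype.val hone
  have h4 : φ j d = 1 := congrFun (congrArg Prod.snd h3) j
  obtain ⟨k, hk⟩ := hs (mem_insert j _)
  have h5 := hd2 k
  rw [hk, h4, hxj, if_pos rfl] at h5
  exact hmj h5.symm

end

end Pool.Agent.h888.WC
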