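import Mathlib
import Pool.Agent.h888.WC.Struct
import Pool.Agent.h888.WC.Lift
import Pool.Agent.h888.WC.Split
import Pool.Agent.h888.WC.Cons
import Pool.Agent.h888.WC.Cpt
import Pool.Agent.h888.WC.Rep
import Pool.Agent.h888.WC.Top

/-!
Assembly: every non-metrizable compact group has a `G_δ`-dense subgroup with a continuous
homomorphic image whose compact subsets are second countable and which is not second countable.
-/

set_option autoImplicit false

namespace Pool.Agent.h888.WC

open Topology Set Filter Cardinal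

universe u

theorem NK_insert_one {G : Type u} {K : Type} [Group G] [Group K] (A : Set (G →* K)) :
    NK (insert 1 A) = NK A := by
  ext x
  rw [mem_NK, mem_NK]
  constructor
  · intro h φ hφ
    exact h φ (mem_insert_of_mem _ hφ)
  · rintro h φ (rfl | hφ)
    · rfl
    · exact h φ hφ

/-- the data of the structure theorem in indexed form -/
theorem indexed (G : Type u) [Group G] [TopologicalSpace G] [IsTopologicalGroup G] [CompactSpace G]
    [T2Space G] (hG : ¬ SecondCountableTopology G) :
    ∃ (α : G →* (ℕ → KK)) (I : Type u) (φ : I → G →* KK), Continuous α ∧ #I = ℵ₁ ∧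
      (∀ i, Continuous (φ i)) ∧ (∀ i, ∃ n ∈ α.ker, φ i n ≠ 1) ∧
      ∀ v : I → G, (∀ i, v i ∈ α.ker) → ∃ n ∈ α.ker, ∀ i, φ i n = φ i (v i) := by
  classical
  obtain ⟨A, hAR, hAc, S, hSR, hSc, hind⟩ := structure_RR hG
  obtain ⟨a, ha⟩ := (hAc.insert (1 : G →* KK)).exists_eq_range ⟨1, mem_insert _ _⟩
  have hac : ∀ n, Continuous (a n) := by
    intro n
    have h1 : a n ∈ insert (1 : G →* KK) A := by rw [ha]; exact mem_range_self n
    rcases h1 with h1 | h1
    · rw [h1]; exact continuous_const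
    · exact RR_continuous (hAR h1)
  let α : G →* (ℕ → KK) := MonoidHom.mk' (fun g n => a n g) (fun x y => by
    funext n; exact map_mul _ _ _)
  have hα : Continuous α := continuous_pi hac
  have hker : α.ker = NK A := by
    rw [← NK_insert_one, ha]
    ext x
    rw [mem_NK, MonoidHom.mem_ker]
    constructor
    · rintro h _ ⟨n, rfl⟩
      exact congrFun h n
    · intro h
      funext n
      exact h (a n) (mem_range_self n)
  have hcard : ℵ₁ ≤ #S := by
    rw [← not_lt, ← Cardinal.countable_iff_lt_aleph_one]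
    exact hSc
  obtain ⟨S', hS', hS'c⟩ := Cardinal.le_mk_iff_exists_subset.1 hcard
  have hcl : IsClosed ((NK A : Subgroup G) : Set G) := isClosed_NK fun φ hφ => RR_continuous (hAR hφ)
  refine ⟨α, S', fun i => i.1, hα, hS'c, fun i => RR_continuous (hSR (hS' i.2)), ?_, ?_⟩
  · intro i
    rw [hker]
    exact hind.1 i.1 (hS' i.2)
  · intro v hv
    rw [hker] at hv ⊢
    obtain ⟨n, hn, hnS⟩ := hind.full hcl (fun φ hφ => RR_continuous (hSR hφ))
      (fun φ => if h : φ ∈ S' then v ⟨φ, h⟩ else 1) (by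
        intro φ _
        by_cases h : φ ∈ S'
        · rw [dif_pos h]; exact hv _
        · rw [dif_neg h]; exact Subgroup.one_mem _)
    refine ⟨n, hn, fun i => ?_⟩
    have h1 := hnS i.1 (hS' i.2)
    rw [dif_pos i.2] at h1
    exact h1

/-- the lifting for all indices at once -/
theorem lift_all (G : Type u) [Group G] [TopologicalSpace G] [IsTopologicalGroup G] [CompactSpace G]
    [T2Space G] (α : G →* (ℕ → KK)) (hα : Continuous α) (I : Type u) (φ : I → G →* KK)
    (hφ : ∀ i, Continuous (φ i))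
    (hInd : ∀ v : I → G, (∀ i, v i ∈ α.ker) → ∃ n ∈ α.ker, ∀ i, φ i n = φ i (v i)) :
    ∃ Θ : (ℕ → Bool) → G, (∀ g, ∃ x, α (Θ x) = α g) ∧ ∀ i, Continuous fun x => φ i (Θ x) := by
  letI mL : MetricSpace (ℕ → KK) := TopologicalSpace.metrizableSpaceMetric _
  letI mK : MetricSpace KK := TopologicalSpace.metrizableSpaceMetric _
  haveI : CompactSpace α.range := by
    have h0 : IsCompact ((α.range : Subgroup (ℕ → KK)) : Set (ℕ → KK)) := by
      rw [MonoidHom.coe_range α]
      exact isCompact_range hα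
    exact isCompact_iff_compactSpace.1 h0
  haveI : Nonempty α.range := ⟨1⟩
  obtain ⟨b, hb, hbs⟩ := exists_nat_bool_continuous_surjective_of_compact α.range
  let a : (ℕ → Bool) → (ℕ → KK) := fun x => (b x).1
  have ha : Continuous a := continuous_subtype_val.comp hb
  have hag : ∀ x, ∃ g, α g = a x := fun x => (b x).2
  choose θ hθc hθ using fun i => lift_one α hα (φ i) (hφ i) a ha hag
  choose g0 hg0 using hag
  choose gi hgi1 hgi2 using hθ
  have h1 : ∀ x, ∃ n ∈ α.ker, ∀ i, φ i n = φ i ((g0 x)⁻¹ * gi i x) := by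
    intro x
    apply hInd
    intro i
    rw [MonoidHom.mem_ker, map_mul, map_inv, hg0, hgi1, inv_mul_cancel]
  choose n hn1 hn2 using h1
  refine ⟨fun x => g0 x * n x, ?_, ?_⟩
  · intro g
    obtain ⟨x, hx⟩ := hbs ⟨α g, g, rfl⟩
    refine ⟨x, ?_⟩
    rw [map_mul, hg0, MonoidHom.mem_ker.1 (hn1 x), mul_one]
    show (b x).1 = α g
    rw [hx]
  · intro i
    have h2 : (fun x => φ i (g0 x * n x)) = θ i := by
      funext x
      rw [map_mul, hn2, map_mul, map_inv, mul_inv_cancel_left, hgi2]
    rw [h2]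
    exact hθc i

/-- Main theorem of this file. -/
theorem main_thm (G : Type u) [Group G] [TopologicalSpace G] [IsTopologicalGroup G] [CompactSpace G]
    [T2Space G] (hG : ¬ SecondCountableTopology G) :
    ∃ (D : Subgroup G), (∀ B : Set G, IsGδ B → B.Nonempty → ((D : Set G) ∩ B).Nonempty) ∧
      ∃ (H : Type u) (_ : Group H) (_ : TopologicalSpace H) (_ : IsTopologicalGroup H)
        (_ : T2Space H) (f : D →* H), Continuous f ∧ Function.Surjective f ∧
        ¬ SecondCountableTopology H ∧ ∀ C : Set H, IsCompact C → SecondCountableTopology C := by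
  classical
  obtain ⟨α, I, φ₀, hα, hI, hφ₀, hnt, hInd₀⟩ := indexed G hG
  obtain ⟨Θ, hΘ, hΘc⟩ := lift_all G α hα I φ₀ hφ₀ hInd₀
  obtain ⟨J, f, ε, hf, hJ, hεk, hεc, hGen⟩ := refine_thm Θ φ₀ α hΘc hI
  let φ : J → G →* KK := fun j => φ₀ (f j)
  have hφ : ∀ j, Continuous (φ j) := fun j => hφ₀ _
  have hInd : ∀ v : J → G, (∀ j, v j ∈ α.ker) → ∃ n ∈ α.ker, ∀ j, φ j n = φ j (v j) := by
    intro v hv
    obtain ⟨n, hn, hnv⟩ := hInd₀ (Function.extend f v 1) (by
      intro i
      by_cases h : ∃ j, f j = i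
      · obtain ⟨j, rfl⟩ := h
        rw [hf.extend_apply]
        exact hv j
      · rw [Function.extend_apply' _ _ _ h]
        exact Subgroup.one_mem _)
    refine ⟨n, hn, fun j => ?_⟩
    have h1 := hnv (f j)
    rw [hf.extend_apply] at h1
    exact h1
  obtain ⟨D₀, hD1, hD2, p, E, cJ, hE, hp⟩ := cons_thm α J hJ φ Θ ε hΘ (fun j => hΘc (f j)) hεk hεc
    hInd hGen
  have hJunc : ¬ (univ : Set J).Countable := by
    intro h
    rw [Cardinal.countable_iff_lt_aleph_one, Cardinal.mk_univ, hJ] at h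
    exact lt_irrefl _ h
  haveI : Nonempty J := by
    by_contra h
    rw [not_nonempty_iff] at h
    exact hJunc (Set.to_countable _)
  let Φ := PhiHom α φ
  have hΦ : Continuous Φ := PhiHom_continuous hα hφ
  let D : Subgroup ((ℕ → KK) × (J → KK)) := D₀.map Φ
  refine ⟨D.comap Φ, fun B hB hne => gdelta_dense hα hφ D₀ hD1 B hB hne, D, inferInstance,
    inferInstance, inferInstance, inferInstance, Φ.subgroupComap D, ?_, ?_, ?_, ?_⟩
  · exact (hΦ.comp continuous_subtype_val).subtype_mk _
  · rintro ⟨_, d, hd, rfl⟩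
    exact ⟨⟨d, ⟨d, hd, rfl⟩⟩, rfl⟩
  · exact not_second hJunc D₀ hD1 hInd (fun j => hnt (f j))
  · intro C hC
    -- transfer
    have hsec : ∀ x : (ℕ → KK) × (J → KK), ∃ g : G, x ∈ D → g ∈ D₀ ∧ Φ g = x := by
      intro x
      by_cases hx : x ∈ D
      · obtain ⟨g, hg, hgx⟩ := hx
        exact ⟨g, fun _ => ⟨hg, hgx⟩⟩
      · exact ⟨1, fun h => absurd h hx⟩
    choose sc hsc using hsec
    have hCi : IsCompact (Subtype.val '' C : Set ((ℕ → KK) × (J → KK))) :=
      hC.image continuous_subtype_val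
    obtain ⟨c, hc, hcC⟩ := compact_small (L := ℕ → KK) (K := KK) (PS := PP) D (by
      intro d hd h j
      obtain ⟨hg, hgx⟩ := hsc d hd
      have h1 : ∀ j, d.2 j = φ j (sc d) := by
        intro j
        conv_lhs => rw [← hgx]
        rfl
      rw [h1]
      apply hD2 _ hg
      simpa only [h1] using h) (fun x => p (sc x)) E (fun x => cJ (sc x)) hE (by
      intro d hd
      obtain ⟨hg, hgx⟩ := hsc d hd
      refine ⟨(hp _ hg).1, fun j hj => ?_⟩
      have h1 : d.2 j = φ j (sc d) := by
        conv_lhs => rw [← hgx]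
        rfl
      rw [h1]
      exact (hp _ hg).2 j hj) (Subtype.val '' C) hCi (by
      rintro _ ⟨x, _, rfl⟩
      exact x.2)
    haveI : CompactSpace C := isCompact_iff_compactSpace.1 hC
    haveI : Countable c := hc.to_subtype
    let F : C → (ℕ → KK) × (c → KK) := fun x => (x.1.1.1, fun j => x.1.1.2 j)
    have hFc : Continuous F := by
      have h1 : Continuous fun x : C => (x.1.1 : (ℕ → KK) × (J → KK)) :=
        continuous_subtype_val.comp continuous_subtype_val
      exact (continuous_fst.comp h1).prodMk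
        (continuous_pi fun j => (continuous_apply j.1).comp (continuous_snd.comp h1))
    have hFi : Function.Injective F := by
      intro x y hxy
      have h1 : (F x).1 = (F y).1 := congrArg Prod.fst hxy
      have h2 : ∀ j ∈ c, x.1.1.2 j = y.1.1.2 j := by
        intro j hj
        have h4 : (F x).2 ⟨j, hj⟩ = (F y).2 ⟨j, hj⟩ := by rw [hxy]
        exact h4
      have h3 := hcC x.1.1 ⟨x.1, x.2, rfl⟩ y.1.1 ⟨y.1, y.2, rfl⟩ h1 h2
      exact Subtype.ext (Subtype.ext h3)
    exact (hFc.isClosedEmbedding hFi).isEmbedding.secondCountableTopology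

end Pool.Agent.h888.WC
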